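import Pool.Agent.Helper61.LN.Goals

/-!
# Packet LN-QUOT (MP_c65973_gt): the classes are the cosets of the relations
-/

set_option autoImplicit false

namespace Pool.Agent.Helper79.LN.QUOT

open Pool.Agent.Helper31.Sk Pool.Agent.Helper35.Skl Pool.Agent.Helper61.LN

universe u

section

variable {A : Type u} [Ring A] (M : MovesU A) (N : MovesD A)

theorem one_sub {x y : KLin A} (h : OneMove M N x y) : x - y ∈ RelK M N := by
  cases h with
  | isotopy w w' c z hi =>
    have e : z + Finsupp.single w c - (z + Finsupp.single w' c) =
        c • (Finsupp.single w (1 : A) - Finsupp.single w' 1) := by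
      rw [smul_sub, Finsupp.smul_single, Finsupp.smul_single, smul_eq_mul, mul_one]
      abel
    rw [e]
    exact Submodule.smul_mem _ _ (Submodule.subset_span (Or.inl (Or.inl ⟨w, w', hi, rfl⟩)))
  | move m u v a c x y z hm hx hy =>
    have e : z + c • x - (z + c • y) = c • (x - y) := by
      rw [smul_sub]
      abel
    rw [e]
    exact Submodule.smul_mem _ _ (Submodule.subset_span
      (Or.inl (Or.inr ⟨m, u, v, a, x, y, hm, hx, hy, rfl⟩)))
  | moveD m U V l r c x y z hm hU hV hx hy =>
    have e : z + c • x - (z + c • y) = c • (x - y) := by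
      rw [smul_sub]
      abel
    rw [e]
    exact Submodule.smul_mem _ _ (Submodule.subset_span
      (Or.inr ⟨m, U, V, l, r, x, y, hm, hU, hV, hx, hy, rfl⟩))

theorem rel_eqv {d : KLin A} (h : d ∈ RelK M N) :
    ∀ (c : A) (y : KLin A), Relation.EqvGen (OneMove M N) (y + c • d) y := by
  unfold RelK at h
  induction h using Submodule.span_induction with
  | mem x hx =>
    intro c y
    rcases hx with (⟨w, w', hi, rfl⟩ | ⟨m, u, v, a, p, q, hm, hp, hq, rfl⟩) |
      ⟨m, U, V, l, r, p, q, hm, hU, hV, hp, hq, rfl⟩
    · have h1 := OneMove.isotopy (M := M) (N := N) w w' c (y - Finsupp.single w' c) hi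
      have e1 : y - Finsupp.single w' c + Finsupp.single w c =
          y + c • (Finsupp.single w (1 : A) - Finsupp.single w' 1) := by
        rw [smul_sub, Finsupp.smul_single, Finsupp.smul_single, smul_eq_mul, mul_one]
        abel
      rw [e1, sub_add_cancel] at h1
      exact Relation.EqvGen.rel _ _ h1
    · have h1 := OneMove.move (M := M) (N := N) m u v a c p q (y - c • q) hm hp hq
      have e1 : y - c • q + c • p = y + c • (p - q) := by
        rw [smul_sub]
        abel
      rw [e1, sub_add_cancel] at h1
      exact Relation.EqvGen.rel _ _ h1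
    · have h1 := OneMove.moveD (M := M) (N := N) m U V l r c p q (y - c • q) hm hU hV hp hq
      have e1 : y - c • q + c • p = y + c • (p - q) := by
        rw [smul_sub]
        abel
      rw [e1, sub_add_cancel] at h1
      exact Relation.EqvGen.rel _ _ h1
  | zero =>
    intro c y
    rw [smul_zero, add_zero]
    exact Relation.EqvGen.refl _
  | add p q _ _ hp hq =>
    intro c y
    have h1 := hp c (y + c • q)
    have e : y + c • (p + q) = y + c • q + c • p := by
      rw [smul_add]
      abel
    rw [e]
    exact Relation.EqvGen.trans _ _ _ h1 (hq c y)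
  | smul a p _ hp =>
    intro c y
    rw [smul_smul]
    exact hp (c * a) y

end

theorem t : S_QUOT.{u} := by
  intro A _ M N x y
  constructor
  · intro h
    induction h with
    | rel x y h => exact one_sub M N h
    | refl x => rw [sub_self]; exact Submodule.zero_mem _
    | symm x y _ ih => rw [← neg_sub]; exact Submodule.neg_mem _ ih
    | trans x y z _ _ ih1 ih2 =>
      have e : x - z = (x - y) + (y - z) := by abel
      rw [e]
      exact Submodule.add_mem _ ih1 ih2
  · intro h
    have h1 := rel_eqv M N h 1 y
    rw [one_smul, add_sub_cancel] at h1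
    exact h1

end Pool.Agent.Helper79.LN.QUOT
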