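import Pool.Agent.Helper64.LN.GoalsA
import Pool.Agent.Helper64.LN.Lem

set_option autoImplicit false

/-! Project LN, packet H1: the projection distance in terms of twisting numbers. -/

open Set

namespace Pool.Agent.Helper79.LN

open Pool.Agent.Helper64.LN

section
variable {H : Type} [Group H] {D : Subgroup H} {Sp : H → H → H → Prop} {l r : H → H → ℝ}
  {sd : H → H → Prop}

lemma crConj (G : GF D Sp) {g a b : H} (hg : g ∈ D) (h : Cr Sp a b) :
    Cr Sp (g * a * g⁻¹) (g * b * g⁻¹) := by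
  have h1 := G.conj g hg a b b⁻¹ h
  unfold Cr
  have e : (g * b * g⁻¹)⁻¹ = g * b⁻¹ * g⁻¹ := by group
  rw [e]
  exact h1

lemma crConj_iff (G : GF D Sp) {g a b : H} (hg : g ∈ D) :
    Cr Sp (g * a * g⁻¹) (g * b * g⁻¹) ↔ Cr Sp a b := by
  constructor
  · intro h
    have h1 := crConj G (D.inv_mem hg) h
    have e1 : g⁻¹ * (g * a * g⁻¹) * g⁻¹⁻¹ = a := by group
    have e2 : g⁻¹ * (g * b * g⁻¹) * g⁻¹⁻¹ = b := by group
    rw [e1, e2] at h1
    exact h1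
  · exact crConj G hg

lemma crPow (G : GF D Sp) {a b : H} (ha : a ∈ D) (h : Cr Sp a b) (k : ℤ) :
    Cr Sp a (a ^ k * b * (a ^ k)⁻¹) := by
  have h1 := crConj G (D.zpow_mem ha k) h
  have e : a ^ k * a * (a ^ k)⁻¹ = a := by group
  rw [e] at h1
  exact h1

lemma conjMem {g a : H} (hg : g ∈ D) (ha : a ∈ D) : g * a * g⁻¹ ∈ D :=
  D.mul_mem (D.mul_mem hg ha) (D.inv_mem hg)

lemma shiftPow (G : Geo D Sp l r sd) {a b : H} (ha : a ∈ D) (hb : b ∈ D) (h : Cr Sp a b)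
    (k : ℤ) : l a (a ^ k * b * (a ^ k)⁻¹) = l a b + k ∧
      r a (a ^ k * b * (a ^ k)⁻¹) = r a b + k := by
  induction k using Int.induction_on with
  | zero => simp
  | succ n ih =>
    have h1 := G.shift a ha (a ^ (n : ℤ) * b * (a ^ (n : ℤ))⁻¹)
      (conjMem (D.zpow_mem ha _) hb) (crPow G.toGF ha h _)
    have e : a * (a ^ (n : ℤ) * b * (a ^ (n : ℤ))⁻¹) * a⁻¹ =
        a ^ ((n : ℤ) + 1) * b * (a ^ ((n : ℤ) + 1))⁻¹ := by group
    rw [e] at h1
    rw [h1.1, h1.2, ih.1, ih.2]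
    push_cast
    constructor <;> ring
  | pred n ih =>
    have h1 := G.shift a ha (a ^ (-(n : ℤ) - 1) * b * (a ^ (-(n : ℤ) - 1))⁻¹)
      (conjMem (D.zpow_mem ha _) hb) (crPow G.toGF ha h _)
    have e : a * (a ^ (-(n : ℤ) - 1) * b * (a ^ (-(n : ℤ) - 1))⁻¹) * a⁻¹ =
        a ^ (-(n : ℤ)) * b * (a ^ (-(n : ℤ)))⁻¹ := by group
    rw [e] at h1
    rw [ih.1, ih.2] at h1
    push_cast at h1 ⊢
    constructor
    · linarith [h1.1]
    · linarith [h1.2]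

lemma ne_one_left (G : GF D Sp) {a b : H} (ha : a ∈ D) (hb : b ∈ D) (h : Cr Sp a b) :
    a ≠ 1 := by
  rintro rfl
  exact G.comm 1 ha b hb h (by simp)

lemma crInvL (G : Geo D Sp l r sd) {a b : H} (ha : a ∈ D) (hb : b ∈ D) (h : Cr Sp a b) :
    Cr Sp a⁻¹ b := by
  refine G.crcom a ha b hb a⁻¹ (D.inv_mem ha) h (by simp) ?_
  intro h1
  exact ne_one_left G.toGF ha hb h (inv_eq_one.1 h1)

lemma crInvR (G : Geo D Sp l r sd) {a b : H} (ha : a ∈ D) (hb : b ∈ D) (h : Cr Sp a b) :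
    Cr Sp a b⁻¹ :=
  G.symm _ (D.inv_mem hb) _ ha (crInvL G hb ha (G.symm _ ha _ hb h))

/-- The set of translates. -/
lemma cross_iff (G : Geo D Sp l r sd) {a b c : H} (ha : a ∈ D) (hb : b ∈ D) (hc : c ∈ D)
    (h1 : Cr Sp a b) (h2 : Cr Sp a c) (k : ℤ) :
    Cr Sp (a ^ k * b * (a ^ k)⁻¹) c ↔
      ((k : ℝ) - (l a c - l a b)) * (k - (r a c - r a b)) < 0 := by
  rw [G.cross a ha _ (conjMem (D.zpow_mem ha k) hb) c hc (crPow G.toGF ha h1 k) h2,
    (shiftPow G ha hb h1 k).1, (shiftPow G ha hb h1 k).2]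
  have e : (l a b + (k : ℝ) - l a c) * (r a b + k - r a c) =
      ((k : ℝ) - (l a c - l a b)) * (k - (r a c - r a b)) := by ring
  rw [e]

/-- The number of translates. -/
noncomputable def NN (Sp : H → H → H → Prop) (a b c : H) : ℕ :=
  Nat.card {k : ℤ // Cr Sp (a ^ k * b * (a ^ k)⁻¹) c}

lemma NN_bounds (h0 : GoalH0) (G : Geo D Sp l r sd) {a b c : H} (ha : a ∈ D) (hb : b ∈ D)
    (hc : c ∈ D) (h1 : Cr Sp a b) (h2 : Cr Sp a c) :
    {k : ℤ | Cr Sp (a ^ k * b * (a ^ k)⁻¹) c}.Finite ∧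
    |tw l r a b - tw l r a c| - 1 ≤ (NN Sp a b c : ℝ) ∧
      (NN Sp a b c : ℝ) ≤ |tw l r a b - tw l r a c| + 1 := by
  have h3 := h0 (l a c - l a b) (r a c - r a b)
  have e1 : {k : ℤ | ((k : ℝ) - (l a c - l a b)) * (k - (r a c - r a b)) < 0} =
      {k : ℤ | Cr Sp (a ^ k * b * (a ^ k)⁻¹) c} := by
    ext k
    exact (cross_iff G ha hb hc h1 h2 k).symm
  have e2 : Nat.card {k : ℤ // ((k : ℝ) - (l a c - l a b)) * (k - (r a c - r a b)) < 0} =
      NN Sp a b c := by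
    unfold NN
    exact Nat.card_congr (Equiv.subtypeEquivRight fun k =>
      (cross_iff G ha hb hc h1 h2 k).symm)
  have e3 : l a c - l a b - (r a c - r a b) = tw l r a b - tw l r a c := by
    unfold tw
    ring
  rw [e1, e2, e3] at h3
  exact h3

lemma tw_same (h0 : GoalH0) (G : Geo D Sp l r sd) {Y : Set (Set H)} (F : Fam D Sp Y)
    {y : Set H} (hy : y ∈ Y) {a b b' : H} (ha : a ∈ D) (hb : b ∈ y) (hb' : b' ∈ y)
    (h1 : Cr Sp a b) (h2 : Cr Sp a b') : |tw l r a b - tw l r a b'| ≤ 1 := by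
  have h3 := (NN_bounds h0 G ha (F.sub y hy b hb) (F.sub y hy b' hb') h1 h2).2.1
  have h4 : NN Sp a b b' = 0 := by
    unfold NN
    have : IsEmpty {k : ℤ // Cr Sp (a ^ k * b * (a ^ k)⁻¹) b'} :=
      ⟨fun k => F.simple y hy _ (F.conj y hy b hb _ (D.zpow_mem ha _)) b' hb' k.2⟩
    exact Nat.card_of_isEmpty
  rw [h4] at h3
  push_cast at h3
  linarith

lemma NN_conj (G : GF D Sp) {g a b c : H} (hg : g ∈ D) :
    NN Sp (g * a * g⁻¹) (g * b * g⁻¹) (g * c * g⁻¹) = NN Sp a b c := by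
  unfold NN
  refine Nat.card_congr (Equiv.subtypeEquivRight fun k => ?_)
  have e : (g * a * g⁻¹) ^ k * (g * b * g⁻¹) * ((g * a * g⁻¹) ^ k)⁻¹ =
      g * (a ^ k * b * (a ^ k)⁻¹) * g⁻¹ := by
    rw [conj_zpow]
    group
  rw [e]
  exact crConj_iff G hg

lemma NN_inv {a b c : H} : NN Sp a⁻¹ b c = NN Sp a b c := by
  unfold NN
  refine Nat.card_congr ((Equiv.neg ℤ).subtypeEquiv fun k => ?_)
  have e : a⁻¹ ^ k = a ^ (-k) := by simp
  rw [e]
  rfl

lemma NN_le (h0 : GoalH0) (G : Geo D Sp l r sd) {Y : Set (Set H)} (F : Fam D Sp Y)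
    {x y z : Set H} (hx : x ∈ Y) (hy : y ∈ Y) (hz : z ∈ Y) {a b c : H} (ha : a ∈ x)
    (hb : b ∈ y) (hc : c ∈ z) (h1 : Cr Sp a b) (h2 : Cr Sp a c) {a' b' c' : H} (ha' : a' ∈ x)
    (hb' : b' ∈ y) (hc' : c' ∈ z) (h1' : Cr Sp a' b') (h2' : Cr Sp a' c') :
    (NN Sp a' b' c' : ℝ) ≤ |tw l r a b - tw l r a c| + 3 := by
  have hD : ∀ {y : Set H}, y ∈ Y → ∀ {a : H}, a ∈ y → a ∈ D := fun hy _ ha => F.sub _ hy _ ha
  -- reduction to the same `a`
  obtain ⟨b₁, hb₁, c₁, hc₁, h3, h4, h5⟩ : ∃ b₁ ∈ y, ∃ c₁ ∈ z, Cr Sp a b₁ ∧ Cr Sp a c₁ ∧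
      NN Sp a' b' c' = NN Sp a b₁ c₁ := by
    obtain ⟨g, hg, h3⟩ := F.cls x hx a ha a' ha'
    have hb₁ := F.conj y hy b' hb' g⁻¹ (D.inv_mem hg)
    have hc₁ := F.conj z hz c' hc' g⁻¹ (D.inv_mem hg)
    have eb : b' = g * (g⁻¹ * b' * g⁻¹⁻¹) * g⁻¹ := by group
    have ec : c' = g * (g⁻¹ * c' * g⁻¹⁻¹) * g⁻¹ := by group
    refine ⟨_, hb₁, _, hc₁, ?_⟩
    rcases h3 with rfl | rfl
    · rw [eb, crConj_iff G.toGF hg] at h1'
      rw [ec, crConj_iff G.toGF hg] at h2'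
      refine ⟨h1', h2', ?_⟩
      conv_lhs => rw [eb, ec]
      exact NN_conj G.toGF hg
    · rw [eb, crConj_iff G.toGF hg] at h1'
      rw [ec, crConj_iff G.toGF hg] at h2'
      have k1 := crInvL G (D.inv_mem (hD hx ha)) (hD hy hb₁) h1'
      have k2 := crInvL G (D.inv_mem (hD hx ha)) (hD hz hc₁) h2'
      rw [inv_inv] at k1 k2
      refine ⟨k1, k2, ?_⟩
      conv_lhs => rw [eb, ec]
      rw [NN_conj G.toGF hg, NN_inv]
  rw [h5]
  have k1 := (NN_bounds h0 G (hD hx ha) (hD hy hb₁) (hD hz hc₁) h3 h4).2.2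
  have k2 := tw_same h0 G F hy (hD hx ha) hb hb₁ h1 h3
  have k3 := tw_same h0 G F hz (hD hx ha) hc hc₁ h2 h4
  have k4 : |tw l r a b₁ - tw l r a c₁| ≤ |tw l r a b - tw l r a c| + 2 := by
    have : tw l r a b₁ - tw l r a c₁ = (tw l r a b - tw l r a c) -
        (tw l r a b - tw l r a b₁) + (tw l r a c - tw l r a c₁) := by ring
    rw [this]
    calc |(tw l r a b - tw l r a c) - (tw l r a b - tw l r a b₁) +
          (tw l r a c - tw l r a c₁)|
        ≤ |(tw l r a b - tw l r a c) - (tw l r a b - tw l r a b₁)| +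
          |tw l r a c - tw l r a c₁| := abs_add_le _ _
      _ ≤ |tw l r a b - tw l r a c| + |tw l r a b - tw l r a b₁| +
          |tw l r a c - tw l r a c₁| := by
          gcongr
          exact abs_sub _ _
      _ ≤ _ := by linarith
  linarith

/-- The set of counts. -/
def CS (Sp : H → H → H → Prop) (x y z : Set H) : Set ℕ :=
  {n : ℕ | ∃ a ∈ x, ∃ b ∈ y, ∃ c ∈ z, Cr Sp a b ∧ Cr Sp a c ∧
    n = Nat.card {k : ℤ // Cr Sp (a ^ k * b * (a ^ k)⁻¹) c}}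

lemma dY_eq (x y z : Set H) : dY Sp x y z = sSup (CS Sp x y z) + 5 := rfl

lemma CS_bdd (h0 : GoalH0) (G : Geo D Sp l r sd) {Y : Set (Set H)} (F : Fam D Sp Y)
    {x y z : Set H} (hx : x ∈ Y) (hy : y ∈ Y) (hz : z ∈ Y) {a b c : H} (ha : a ∈ x)
    (hb : b ∈ y) (hc : c ∈ z) (h1 : Cr Sp a b) (h2 : Cr Sp a c) :
    ∀ n ∈ CS Sp x y z, (n : ℝ) ≤ |tw l r a b - tw l r a c| + 3 := by
  rintro n ⟨a', ha', b', hb', c', hc', h1', h2', rfl⟩
  exact NN_le h0 G F hx hy hz ha hb hc h1 h2 ha' hb' hc' h1' h2'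

lemma CS_bddAbove (h0 : GoalH0) (G : Geo D Sp l r sd) {Y : Set (Set H)} (F : Fam D Sp Y)
    {x y z : Set H} (hx : x ∈ Y) (hy : y ∈ Y) (hz : z ∈ Y) (hne : (CS Sp x y z).Nonempty) :
    BddAbove (CS Sp x y z) := by
  obtain ⟨n, a, ha, b, hb, c, hc, h1, h2, -⟩ := hne
  refine ⟨⌈|tw l r a b - tw l r a c| + 3⌉₊, fun m hm => ?_⟩
  have h3 := CS_bdd h0 G F hx hy hz ha hb hc h1 h2 m hm
  exact_mod_cast h3.trans (Nat.le_ceil _)

theorem goalH1 (h0 : GoalH0) : GoalH1 := by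
  intro H _ D Sp l r sd Y G F
  refine ⟨?_, ?_, ?_⟩
  · intro x hx y hy hxy a ha
    obtain ⟨a₀, ha₀, b₀, hb₀, h1⟩ := F.cross x hx y hy hxy
    obtain ⟨g, hg, h2⟩ := F.cls x hx a₀ ha₀ a ha
    refine ⟨g * b₀ * g⁻¹, F.conj y hy b₀ hb₀ g hg, ?_⟩
    rcases h2 with rfl | rfl
    · exact crConj G.toGF hg h1
    · exact crConj G.toGF hg (crInvL G (F.sub x hx _ ha₀) (F.sub y hy _ hb₀) h1)
  · intro x hx y hy z hz _ _ a ha b hb c hc h1 h2
    have h3 := CS_bdd h0 G F hx hy hz ha hb hc h1 h2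
    have hmem : NN Sp a b c ∈ CS Sp x y z := ⟨a, ha, b, hb, c, hc, h1, h2, rfl⟩
    have hbdd := CS_bddAbove h0 G F hx hy hz ⟨_, hmem⟩
    have h4 : NN Sp a b c ≤ sSup (CS Sp x y z) := le_csSup hbdd hmem
    have h5 := h3 _ (Nat.sSup_mem ⟨_, hmem⟩ hbdd)
    have h6 := (NN_bounds h0 G (F.sub x hx a ha) (F.sub y hy b hb) (F.sub z hz c hc) h1 h2).2.1
    have h4' : (NN Sp a b c : ℝ) ≤ ((sSup (CS Sp x y z) : ℕ) : ℝ) := by exact_mod_cast h4
    rw [dY_eq]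
    push_cast
    constructor
    · linarith
    · linarith
  · intro x hx y hy z hz _ _ hd
    rw [dY_eq] at hd
    have h3 : 5 < sSup (CS Sp x y z) := by omega
    have hne : (CS Sp x y z).Nonempty := by
      by_contra h4
      rw [Set.not_nonempty_iff_eq_empty] at h4
      rw [h4] at h3
      simp at h3
    have hbdd := CS_bddAbove h0 G F hx hy hz hne
    obtain ⟨a, ha, b, hb, c, hc, h1, h2, h5⟩ := Nat.sSup_mem hne hbdd
    have haD := F.sub x hx a ha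
    have hbD := F.sub y hy b hb
    have hcD := F.sub z hz c hc
    have hfin := (NN_bounds h0 G haD hbD hcD h1 h2).1
    set K : Set ℤ := {k : ℤ | Cr Sp (a ^ k * b * (a ^ k)⁻¹) c} with hK
    have hcard : 6 ≤ K.ncard := by
      have e : Nat.card {k : ℤ // Cr Sp (a ^ k * b * (a ^ k)⁻¹) c} = K.ncard := rfl
      rw [← e, ← h5]
      omega
    have hKiff : ∀ k : ℤ, k ∈ K ↔
        ((k : ℝ) - (l a c - l a b)) * (k - (r a c - r a b)) < 0 := fun k =>
      cross_iff G haD hbD hcD h1 h2 k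
    have hconv : ∀ i ∈ K, ∀ j ∈ K, ∀ m : ℤ, i ≤ m → m ≤ j → m ∈ K := by
      intro i hi j hj m him hmj
      rw [hKiff] at hi hj ⊢
      have him' : (i : ℝ) ≤ m := by exact_mod_cast him
      have hmj' : (m : ℝ) ≤ j := by exact_mod_cast hmj
      rw [mul_neg_iff] at hi hj ⊢
      rcases hi with hi | hi <;> rcases hj with hj | hj
      · left
        constructor <;> linarith [hi.1, hi.2, hj.1, hj.2]
      · left
        constructor <;> linarith [hi.1, hi.2, hj.1, hj.2]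
      · right
        constructor <;> linarith [hi.1, hi.2, hj.1, hj.2]
      · right
        constructor <;> linarith [hi.1, hi.2, hj.1, hj.2]
    have hKne : K.Nonempty := by
      by_contra h6
      rw [Set.not_nonempty_iff_eq_empty] at h6
      rw [h6] at hcard
      simp at hcard
    obtain ⟨k₀, hk₀, hmin⟩ := Set.exists_min_image K id hfin hKne
    simp only [id] at hmin
    have h5K : k₀ + 5 ∈ K := by
      by_contra h6
      have hsub : K ⊆ ↑(Finset.Icc k₀ (k₀ + 4)) := by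
        intro k hk
        have h7 := hmin k hk
        rw [Finset.coe_Icc]
        refine ⟨h7, ?_⟩
        by_contra h8
        exact h6 (hconv k₀ hk₀ k hk (k₀ + 5) (by omega) (by omega))
      have h7 := Set.ncard_le_ncard hsub (Finset.finite_toSet _)
      rw [Set.ncard_coe_finset, Int.card_Icc] at h7
      omega
    refine ⟨a, ha, a ^ k₀ * b * (a ^ k₀)⁻¹, F.conj y hy b hb _ (D.zpow_mem haD _), c, hc,
      crPow G.toGF haD h1 k₀, h2, ?_⟩
    intro k hk hk5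
    have h6 : k₀ + k ∈ K := hconv k₀ hk₀ (k₀ + 5) h5K _ (by omega) (by omega)
    have e : a ^ k * (a ^ k₀ * b * (a ^ k₀)⁻¹) * (a ^ k)⁻¹ =
        a ^ (k₀ + k) * b * (a ^ (k₀ + k))⁻¹ := by
      rw [zpow_add]
      group
    rw [e]
    exact h6

end

end Pool.Agent.Helper79.LN
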