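import Pool.Agent.Helper64.LN.GoalsB

set_option autoImplicit false
set_option linter.unusedSimpArgs false

/-! Project LN, packet RET: the retraction. -/

open Topology Filter Set Metric UpperHalfPlane
open scoped MatrixGroups

namespace Pool.Agent.Helper79.LN

open Pool.Agent.Helper64.LN
open Pool.Agent.Helper64

section
variable {X : Type*} [TopologicalSpace X]

lemma ru_mem {B : Set X} {u : ℍ → X} (hu : Uni B u) (z : ℍ) : u z ∈ (Bᶜ : Set X) := by
  rw [← hu.range]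
  exact ⟨z, rfl⟩

lemma ru_isCov {B : Set X} {u : ℍ → X} (hu : Uni B u) :
    IsCoveringMap (Set.codRestrict u Bᶜ (ru_mem hu)) := by
  have e : u ⁻¹' Bᶜ = univ := by
    ext z
    simp only [mem_preimage, mem_univ, iff_true]
    exact ru_mem hu z
  let g : ℍ ≃ₜ (u ⁻¹' Bᶜ : Set ℍ) :=
    (Homeomorph.Set.univ ℍ).symm.trans (Homeomorph.setCongr e.symm)
  have h := (hu.cov.isCoveringMap_restrictPreimage).comp_homeomorph g
  convert! h using 1

lemma ru_cont {B : Set X} {u : ℍ → X} (hu : Uni B u) : Continuous u :=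
  continuous_subtype_val.comp (ru_isCov hu).continuous

lemma ru_eq {B : Set X} {u : ℍ → X} (hu : Uni B u) {A : Type*} [TopologicalSpace A]
    [PreconnectedSpace A] {g₁ g₂ : A → ℍ} (h₁ : Continuous g₁)
    (h₂ : Continuous g₂) (h : ∀ x, u (g₁ x) = u (g₂ x)) (x₀ : A)
    (h0 : g₁ x₀ = g₂ x₀) : g₁ = g₂ := by
  refine (ru_isCov hu).eq_of_comp_eq h₁ h₂ ?_ x₀ h0
  funext x
  exact Subtype.ext (h x)

/-- The lifting property. -/
lemma ru_lift {B : Set X} {u : ℍ → X} (hu : Uni B u) (f : C(ℍ, X)) (hf : ∀ z, f z ∉ B)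
    (z₀ w₀ : ℍ) (h0 : u w₀ = f z₀) : ∃ F : C(ℍ, ℍ), F z₀ = w₀ ∧ ∀ z, u (F z) = f z := by
  obtain ⟨F, ⟨h1, h2⟩, -⟩ := (ru_isCov hu).existsUnique_continuousMap_lifts
    (⟨fun z => ⟨f z, hf z⟩, by fun_prop⟩ : C(ℍ, (Bᶜ : Set X))) z₀ w₀ (Subtype.ext h0)
  refine ⟨F, h1, fun z => ?_⟩
  exact congrArg Subtype.val (congrFun h2 z)

/-- Deck transformations act transitively on the fibres. -/
lemma ru_trans {B : Set X} {u : ℍ → X} (hu : Uni B u) {z w : ℍ} (h : u z = u w) :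
    ∃ g ∈ deck u, g z = w := by
  obtain ⟨g, h1, h2⟩ := hu.deck z w h
  exact ⟨mh g, mem_deck.2 ⟨g, h2, rfl⟩, h1⟩

lemma path_in {K : Set X} {c : Set X} (hc : frontier K = c) (σ : C(unitInterval, X))
    (h1 : ∀ t, σ t ∉ c) (t₀ : unitInterval) (h2 : σ t₀ ∈ K) (t : unitInterval) : σ t ∈ K := by
  have e1 : {t | σ t ∈ K} = σ ⁻¹' closure K := by
    ext s
    refine ⟨fun h => subset_closure h, fun h => ?_⟩
    by_contra h3
    refine h1 s ?_
    rw [← hc]
    exact ⟨h, fun h4 => h3 (interior_subset (s := K) h4)⟩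
  have e2 : {t | σ t ∈ K} = σ ⁻¹' interior K := by
    ext s
    refine ⟨fun h => ?_, fun h => interior_subset (s := K) h⟩
    by_contra h3
    refine h1 s ?_
    rw [← hc]
    exact ⟨subset_closure h, h3⟩
  have hcl : IsClopen {t | σ t ∈ K} :=
    ⟨by rw [e1]; exact isClosed_closure.preimage σ.continuous,
      by rw [e2]; exact isOpen_interior.preimage σ.continuous⟩
  have h3 := hcl.eq_univ ⟨t₀, h2⟩
  have h4 : t ∈ {t | σ t ∈ K} := by
    rw [h3]
    exact mem_univ t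
  exact h4

end

/-! ### Matrices -/

lemma trace_conj (m A : SL(2, ℝ)) :
    (A * m * A⁻¹) 0 0 + (A * m * A⁻¹) 1 1 = m 0 0 + m 1 1 := by
  have hdet := A.det_coe
  rw [Matrix.det_fin_two] at hdet
  simp only [Matrix.SpecialLinearGroup.coe_mul, Matrix.SpecialLinearGroup.coe_inv,
    Matrix.adjugate_fin_two, Matrix.mul_apply, Fin.sum_univ_two, Matrix.of_apply,
    Matrix.cons_val', Matrix.cons_val_zero, Matrix.cons_val_one, Matrix.cons_val_fin_one]
  linear_combination (m 0 0 + m 1 1) * hdet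

lemma hy_conj {γ : ℍ ≃ₜ ℍ} (h : hy γ) (k : SL(2, ℝ)) : hy (mh k * γ * (mh k)⁻¹) := by
  obtain ⟨g, rfl, h2⟩ := h
  refine ⟨k * g * k⁻¹, by rw [map_mul, map_mul, map_inv], ?_⟩
  rw [trace_conj]
  exact h2

lemma not_par (L : SL(2, ℝ)) (hL : 2 < |L 0 0 + L 1 1|) : mh L * mh PQ.T1 ≠ mh PQ.T1 * mh L := by
  intro h
  rw [← map_mul, ← map_mul, mh_eq_iff] at h
  have hdet := L.det_coe
  rw [Matrix.det_fin_two] at hdet
  have t1 : PQ.T1 0 0 = 1 := rfl
  have t2 : PQ.T1 0 1 = 1 := rfl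
  have t3 : PQ.T1 1 0 = 0 := rfl
  have t4 : PQ.T1 1 1 = 1 := rfl
  have a1 : (L * PQ.T1) 0 0 = L 0 0 := by
    simp only [Matrix.SpecialLinearGroup.coe_mul, Matrix.mul_apply, Fin.sum_univ_two, t1, t2, t3,
      t4]
    ring
  have a2 : (L * PQ.T1) 0 1 = L 0 0 + L 0 1 := by
    simp only [Matrix.SpecialLinearGroup.coe_mul, Matrix.mul_apply, Fin.sum_univ_two, t1, t2, t3,
      t4]
    ring
  have a3 : (L * PQ.T1) 1 0 = L 1 0 := by
    simp only [Matrix.SpecialLinearGroup.coe_mul, Matrix.mul_apply, Fin.sum_univ_two, t1, t2, t3,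
      t4]
    ring
  have b1 : (PQ.T1 * L) 0 0 = L 0 0 + L 1 0 := by
    simp only [Matrix.SpecialLinearGroup.coe_mul, Matrix.mul_apply, Fin.sum_univ_two, t1, t2, t3,
      t4]
    ring
  have b2 : (PQ.T1 * L) 0 1 = L 0 1 + L 1 1 := by
    simp only [Matrix.SpecialLinearGroup.coe_mul, Matrix.mul_apply, Fin.sum_univ_two, t1, t2, t3,
      t4]
    ring
  have b3 : (PQ.T1 * L) 1 0 = L 1 0 := by
    simp only [Matrix.SpecialLinearGroup.coe_mul, Matrix.mul_apply, Fin.sum_univ_two, t1, t2, t3,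
      t4]
    ring
  rcases h with h | h
  · have c1 : (L * PQ.T1) 0 0 = (PQ.T1 * L) 0 0 := by rw [h]
    have c2 : (L * PQ.T1) 0 1 = (PQ.T1 * L) 0 1 := by rw [h]
    rw [a1, b1] at c1
    rw [a2, b2] at c2
    have d1 : L 1 0 = 0 := by linarith
    have d2 : L 1 1 = L 0 0 := by linarith
    rw [d1, d2] at hdet
    rw [d2] at hL
    have h3 : L 0 0 * L 0 0 = 1 := by linarith
    rcases mul_self_eq_one_iff.1 h3 with h4 | h4
    all_goals
      rw [h4] at hL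
      norm_num at hL
  · have neg : ∀ (M : SL(2, ℝ)) (i j : Fin 2), (-M) i j = -(M i j) := fun _ _ _ => rfl
    have c1 : (L * PQ.T1) 0 0 = (-(PQ.T1 * L)) 0 0 := by rw [h]
    have c3 : (L * PQ.T1) 1 0 = (-(PQ.T1 * L)) 1 0 := by rw [h]
    rw [neg, a1, b1] at c1
    rw [neg, a3, b3] at c3
    have d1 : L 1 0 = 0 := by linarith
    have d2 : L 0 0 = 0 := by linarith
    rw [d1, d2] at hdet
    norm_num at hdet

lemma nc_par {γ : ℍ ≃ₜ ℍ} (h : hy γ) (A : SL(2, ℝ)) : Nc γ (piA A) := by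
  intro h1
  obtain ⟨m, h2, h3⟩ := hy_conj h A⁻¹
  refine not_par m h3 ?_
  rw [← h2]
  have e : piA A = mh A * mh PQ.T1 * (mh A)⁻¹ := by
    unfold piA
    rw [map_mul, map_mul, map_inv]
  rw [e] at h1
  rw [map_inv, inv_inv]
  calc (mh A)⁻¹ * γ * mh A * mh PQ.T1 = (mh A)⁻¹ * (γ * (mh A * mh PQ.T1 * (mh A)⁻¹)) * mh A := by
        group
    _ = (mh A)⁻¹ * (mh A * mh PQ.T1 * (mh A)⁻¹ * γ) * mh A := by rw [h1]
    _ = mh PQ.T1 * ((mh A)⁻¹ * γ * mh A) := by group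

lemma nc_par' {γ : ℍ ≃ₜ ℍ} (h : hy γ) (A k : SL(2, ℝ)) :
    Nc γ (mh k * piA A * (mh k)⁻¹) := by
  intro h1
  refine nc_par (hy_conj h k⁻¹) A ?_
  rw [map_inv, inv_inv]
  calc (mh k)⁻¹ * γ * mh k * piA A = (mh k)⁻¹ * (γ * (mh k * piA A * (mh k)⁻¹)) * mh k := by
        group
    _ = (mh k)⁻¹ * (mh k * piA A * (mh k)⁻¹ * γ) * mh k := by rw [h1]
    _ = piA A * ((mh k)⁻¹ * γ * mh k) := by group

lemma T1_vadd (z : ℍ) : PQ.T1 • z = (1 : ℝ) +ᵥ z := by
  apply UpperHalfPlane.ext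
  rw [UpperHalfPlane.coe_specialLinearGroup_apply, UpperHalfPlane.coe_vadd]
  have h1 : PQ.T1 0 0 = 1 := rfl
  have h2 : PQ.T1 0 1 = 1 := rfl
  have h3 : PQ.T1 1 0 = 0 := rfl
  have h4 : PQ.T1 1 1 = 1 := rfl
  rw [h1, h2, h3, h4]
  simp [add_comm]

/-- The horocycle. -/
noncomputable def hor (A : SL(2, ℝ)) (ζ : ℍ) : C(ℝ, ℍ) where
  toFun t := A • (t +ᵥ ζ)
  continuous_toFun := by
    refine (mh A).continuous.comp ?_
    rw [UpperHalfPlane.isEmbedding_coe.continuous_iff]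
    change Continuous fun t : ℝ => ((t +ᵥ ζ : ℍ) : ℂ)
    simp only [UpperHalfPlane.coe_vadd]
    fun_prop

lemma hor_apply (A : SL(2, ℝ)) (ζ : ℍ) (t : ℝ) : hor A ζ t = A • (t +ᵥ ζ) := rfl

lemma hor_per (A : SL(2, ℝ)) (ζ : ℍ) (t : ℝ) : hor A ζ (t + 1) = piA A (hor A ζ t) := by
  rw [hor_apply, hor_apply]
  change _ = (A * PQ.T1 * A⁻¹) • (A • (t +ᵥ ζ))
  rw [mul_smul, mul_smul, inv_smul_smul, T1_vadd, vadd_vadd, add_comm t 1]

lemma sf_cont (m : SL(2, ℝ)) : Continuous (sf m) := by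
  unfold sf
  have h1 := UpperHalfPlane.continuous_re
  have h2 := UpperHalfPlane.continuous_im
  fun_prop

universe v

theorem goalRET (g0 : GoalG0.{v}) (cr3 : GoalCR3) (pre : GoalPRE.{v}) (reg : GoalREG.{v})
    (sz : GoalSZ) (cu1 : GoalCU1.{v}) (l3 : GoalL3.{v}) : GoalRET.{v} := by
  intro X _ _ p P u C K γ ω W A ζ hC hB
  obtain ⟨r, hr1, hr2⟩ := hC.retr
  have hu := hC.uni
  have huc := ru_cont hu
  have hcB : ∀ x ∈ C '' sphere (0 : ℂ) 1, x ∉ insert p P := by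
    rintro _ ⟨z, hz, rfl⟩
    refine hC.tgt z ?_
    rw [hC.src]
    rw [mem_sphere_zero_iff_norm] at hz
    constructor <;> rw [hz] <;> norm_num
  have hrK : ∀ x, r x ∈ K := by
    intro x
    by_cases hx : x ∈ K
    · rw [hr1 x hx]
      exact hx
    · have h1 := hr2 x hx
      rw [← hC.fr] at h1
      exact hC.comp.isClosed.frontier_subset h1
  have hrB : ∀ z, r (u z) ∉ insert p P := by
    intro z
    by_cases hx : u z ∈ K
    · rw [hr1 _ hx]
      exact ru_mem hu z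
    · exact hcB _ (hr2 _ hx)
  have hint : ∀ x ∈ interior K, x ∉ C '' sphere (0 : ℂ) 1 := by
    intro x hx h1
    rw [← hC.fr] at h1
    exact h1.2 hx
  obtain ⟨z0, hz0def⟩ : ∃ z0 : ℍ, z0 = A • ζ := ⟨_, rfl⟩
  have hz0 : u z0 ∈ interior K := by
    rw [hz0def]
    exact hB.inK ζ le_rfl
  obtain ⟨Ψ, hΨ0, hΨ'⟩ := ru_lift hu (r.comp ⟨u, huc⟩) hrB z0 z0 (by
    change u z0 = r (u z0)
    rw [hr1 _ (interior_subset hz0)])
  have hΨ : ∀ z, u (Ψ z) = r (u z) := hΨ'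
  have hρ : ∀ g ∈ deck u, ∃ h ∈ deck u, ∀ z, Ψ (g z) = h (Ψ z) := by
    intro g hg
    obtain ⟨h, hh, h1⟩ := ru_trans hu (z := Ψ z0) (w := Ψ (g z0)) (by
      rw [hΨ, hΨ, deck_apply hg])
    refine ⟨h, hh, fun z => ?_⟩
    have h2 := ru_eq hu (g₁ := fun z => Ψ (g z)) (g₂ := fun z => h (Ψ z))
      (Ψ.continuous.comp g.continuous) (h.continuous.comp Ψ.continuous)
      (fun z => by rw [hΨ, deck_apply hh, hΨ, deck_apply hg]) z0 h1.symm
    exact congrFun h2 z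
  choose R hR1 hR2 using fun g : deck u => hρ g g.2
  have huniq : ∀ F ∈ deck u, ∀ G ∈ deck u, ∀ z, F z = G z → F = G := (l3 X _ u hu).2.1
  have hπ : piA A ∈ deck u := (cu1 X p _ u A hu (mem_insert _ _) hB.cusp).1
  have hγhy : hy γ := by
    obtain ⟨e, he, h1⟩ := hC.hp
    obtain ⟨m, hm, h2⟩ := mem_deck.1 hC.deck
    obtain ⟨d, hd, h3⟩ := mem_deck.1 he
    refine ⟨m, h2, (cr3 (PQ.deckG u) (g0 X _ u hu) m hm d hd ?_).1⟩
    rw [← h2, ← h3]
    exact h1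
  have havoid : ∀ z, u z ∈ interior K → ∀ h ∈ deck u, z ∉ ax (h * γ * h⁻¹) := by
    intro z hz h hh h1
    exact hint _ hz (((pre X p P u C K γ ω hC).2 z).2 ⟨h, hh, h1⟩)
  have hhor : ∀ t, u (hor A ζ t) ∈ interior K := by
    intro t
    rw [hor_apply]
    refine hB.inK _ ?_
    rw [UpperHalfPlane.vadd_im]
  have key : ∀ h ∈ deck u, ∀ g ∈ deck u, (Sp (h * γ * h⁻¹) (g * piA A * g⁻¹) (piA A) ↔
      Sz (h * γ * h⁻¹) (g z0) z0) := by
    intro h hh g hg
    obtain ⟨k, hk, rfl⟩ := mem_deck.1 hh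
    obtain ⟨q, hq, rfl⟩ := mem_deck.1 hg
    have h1 := sz (PQ.deckG u) (g0 X _ u hu) (mh k * γ * (mh k)⁻¹)
      ((deck u).mul_mem ((deck u).mul_mem hh hC.deck) ((deck u).inv_mem hh))
      (mh q * piA A * (mh q)⁻¹)
      ((deck u).mul_mem ((deck u).mul_mem hg hπ) ((deck u).inv_mem hg)) (piA A) hπ
      (hy_conj hγhy k) (nc_par' (hy_conj hγhy k) A q) (nc_par (hy_conj hγhy k) A)
      ⟨fun t => mh q (hor A ζ t), (mh q).continuous.comp (hor A ζ).continuous⟩ (hor A ζ)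
      (fun t => by
        change mh q (hor A ζ (t + 1)) = mh q (piA A ((mh q)⁻¹ (mh q (hor A ζ t))))
        rw [hor_per]
        congr 2
        exact ((mh q).symm_apply_apply _).symm)
      (hor_per A ζ)
      (fun t => havoid _ (by
        change u (mh q (hor A ζ t)) ∈ _
        rw [deck_apply hg]
        exact hhor t) _ hh)
      (fun t => havoid _ (hhor t) _ hh) 0 0
    have e : hor A ζ 0 = z0 := by rw [hor_apply, zero_vadd, hz0def]
    change (_ ↔ Sz _ (mh q (hor A ζ 0)) (hor A ζ 0)) at h1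
    rw [e] at h1
    exact h1
  refine ⟨MonoidHom.mk' (fun g => ⟨R g, hR1 g⟩) ?_, ?_, ?_⟩
  · intro a b
    apply Subtype.ext
    refine huniq _ (hR1 _) _ ((deck u).mul_mem (hR1 a) (hR1 b)) (Ψ z0) ?_
    rw [← hR2 (a * b)]
    change Ψ ((a : ℍ ≃ₜ ℍ) ((b : ℍ ≃ₜ ℍ) z0)) = R a (R b (Ψ z0))
    rw [hR2 a, hR2 b]
  · intro g
    refine ⟨hR1 g, fun h hh hs => ?_⟩
    change Sp (h * γ * h⁻¹) (R g * piA A * (R g)⁻¹) (piA A) at hs
    have h1 := (key h hh (R g) (hR1 g)).1 hs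
    obtain ⟨k, hk, rfl⟩ := mem_deck.1 hh
    obtain ⟨m, hm, hγm⟩ := mem_deck.1 hC.deck
    have τ := PathConnectedSpace.somePath z0 ((g : ℍ ≃ₜ ℍ) z0)
    obtain ⟨f, hf⟩ : ∃ f : unitInterval → ℍ, f = fun t => (mh k)⁻¹ (Ψ (τ t)) := ⟨_, rfl⟩
    have hfc : Continuous f := by
      rw [hf]
      exact ((mh k)⁻¹).continuous.comp (Ψ.continuous.comp τ.continuous)
    have hfK : ∀ t, u (f t) ∈ K := by
      intro t
      rw [hf]
      change u ((mh k)⁻¹ (Ψ (τ t))) ∈ K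
      rw [deck_apply ((deck u).inv_mem hh), hΨ]
      exact hrK _
    have hf0 : mh k (f 0) = z0 := by
      rw [hf]
      change mh k ((mh k).symm (Ψ (τ 0))) = z0
      rw [(mh k).apply_symm_apply, τ.source, hΨ0]
    have hf1 : mh k (f 1) = R g z0 := by
      rw [hf]
      change mh k ((mh k).symm (Ψ (τ 1))) = R g z0
      rw [(mh k).apply_symm_apply, τ.target, hR2 g, hΨ0]
    have h2 : sf m (f 1) * sf m (f 0) < 0 := by
      rw [← Sz_mh, ← Sz_conj k m, hf0, hf1, ← hγm]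
      exact h1
    obtain ⟨e0, he0⟩ : ∃ e0, e0 = sf m (W 0 (3 / 4)) := ⟨_, rfl⟩
    have he0' : e0 ≠ 0 := by
      intro h3
      have h4 := hB.sides 0 0 (3 / 4) (by constructor <;> norm_num) (3 / 2)
        (by constructor <;> norm_num)
      rw [hγm, Sz_mh, ← he0, h3, zero_mul] at h4
      exact lt_irrefl _ h4
    have hsfc : Continuous fun t => sf m (f t) * e0 :=
      ((sf_cont m).comp hfc).mul continuous_const
    have hopen1 : IsOpen {t | sf m (f t) * e0 < 0} := isOpen_lt hsfc continuous_const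
    have hopen2 : IsOpen {t | sf m (f t) * e0 < 0}ᶜ := by
      rw [isOpen_iff_mem_nhds]
      intro t ht
      have ht' : 0 ≤ sf m (f t) * e0 := not_lt.1 ht
      rcases ht'.lt_or_eq with h3 | h3
      · filter_upwards [hsfc.continuousAt.eventually_mem (isOpen_Ioi.mem_nhds h3)] with s hs
        exact not_lt.2 (le_of_lt (mem_Ioi.1 hs))
      · have h4 : sf m (f t) = 0 := by
          rcases mul_eq_zero.1 h3.symm with h5 | h5
          · exact h5
          · exact absurd h5 he0'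
        have h5 : f t ∈ ax γ := by
          rw [hγm, ax_mh]
          exact h4
        rw [hB.axis] at h5
        obtain ⟨s, hs⟩ := h5
        have h6 := hB.loc s
        rw [hs] at h6
        filter_upwards [hfc.continuousAt.eventually h6] with t' ht'
        intro h7
        refine ht'.1 ?_ (hfK t')
        rw [hγm, Sz_mh, ← he0]
        exact h7
    have hcl : IsClopen {t | sf m (f t) * e0 < 0} := ⟨⟨hopen2⟩, hopen1⟩
    have hsq : 0 < e0 * e0 := mul_self_pos.2 he0'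
    rcases isClopen_iff.1 hcl with h3 | h3
    · have h4 : ∀ t, 0 ≤ sf m (f t) * e0 := by
        intro t
        by_contra h5
        have h6 : t ∈ {t | sf m (f t) * e0 < 0} := not_le.1 h5
        rw [h3] at h6
        exact h6
      nlinarith [mul_nonneg (h4 1) (h4 0)]
    · have h4 : ∀ t, sf m (f t) * e0 < 0 := by
        intro t
        have h6 : t ∈ {t | sf m (f t) * e0 < 0} := by
          rw [h3]
          exact mem_univ t
        exact h6
      nlinarith [mul_pos_of_neg_of_neg (h4 1) (h4 0)]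
  · rintro g ⟨-, hg2⟩
    have h1 : ∀ h ∈ deck u, ¬ Sz (h * γ * h⁻¹) ((g : ℍ ≃ₜ ℍ) z0) z0 := fun h hh hs =>
      hg2 h hh ((key h hh g g.2).2 hs)
    have hgz : u ((g : ℍ ≃ₜ ℍ) z0) ∈ interior K := by
      rw [deck_apply g.2]
      exact hz0
    obtain ⟨σ, s0, s1, hs⟩ := (reg X p P u C K γ ω hC ((g : ℍ ≃ₜ ℍ) z0) z0 (hint _ hgz)
      (hint _ hz0)).1 h1
    have hsK : ∀ t, u (σ t) ∈ K := path_in hC.fr ((⟨u, huc⟩ : C(ℍ, X)).comp σ) hs 1 (by
      change u (σ 1) ∈ K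
      rw [s1]
      exact interior_subset hz0)
    have h2 : (fun t => Ψ (σ t)) = fun t => σ t := ru_eq hu (A := unitInterval)
      (Ψ.continuous.comp σ.continuous) σ.continuous (fun t => by rw [hΨ, hr1 _ (hsK t)]) 1
      (by rw [s1, hΨ0])
    have h3 : Ψ (σ 0) = σ 0 := congrFun h2 0
    rw [s0, hR2 g, hΨ0] at h3
    exact Subtype.ext (huniq _ (hR1 g) _ g.2 z0 h3)

end Pool.Agent.Helper79.LN
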