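import Pool.Agent.Helper78.LN.Base
import Pool.Agent.Helper51.LM.SMF

/-! # The functions of the simulating machine are in `PolyTime` -/

set_option autoImplicit false

namespace Pool.Agent.Helper79.LNA

open Pool.Agent.Helper81.CC Pool.Agent.Helper51.ZP Pool.Agent.Helper83.CL
open Pool.Agent.Helper78.LN
open Pool.Agent.Helper78.LM (unitV PT_of_comp)
open Pool.Agent.Helper51.LM (PT_unitV)

attribute [local irreducible] unpairL

variable {α : Type} [ToData α]

section
variable (A : LinMachine)

theorem kk_le (x s : List Bool) (t : ℕ) : kk A x s t ≤ t := by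
  induction t with
  | zero => simp [kk]
  | succ t ih =>
    rw [kk]
    split_ifs <;> omega

theorem PT_kk {x s : α → List Bool} {n : α → ℕ} (hx : PolyTime x) (hs : PolyTime s)
    (hn : PolyTime n) : PolyTime (fun a => kk A (x a) (s a) (n a)) := by
  have hreads : PolyTime A.reads := PT_of_comp A.reads_poly
  have e : ∀ (a : α) (k : ℕ), Nat.rec (motive := fun _ => ℕ) 0 (fun t k =>
      k + (if A.reads (x a, t, (s a).take k) = true then 1 else 0)) k = kk A (x a) (s a) k := by
    intro a k
    induction k with
    | zero => rfl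
    | succ k ih => simp only [kk]; rw [ih]
  have h1 := PolyTime.nat_rec_bd (s0 := fun _ : α => (0 : ℕ))
    (step := fun a t k => k + (if A.reads (x a, t, (s a).take k) = true then 1 else 0))
    hn (by fun_prop) ?_ (B := fun a => 2 * n a + 1)
    (((PBd.const 2).mul (PBd.nat hn)).add (PBd.const 1)) ?_
  · exact PolyTime.congr h1 fun a => e a (n a)
  · have h2 : PolyTime (fun z : α × ℕ × ℕ => A.reads (x z.1, z.2.1, (s z.1).take z.2.2)) :=
      PolyTime.comp hreads (PolyTime.pair (by fun_prop) (PolyTime.pair (by fun_prop)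
        (by fun_prop)))
    exact PolyTime.add (by fun_prop) (PolyTime.ite h2 (by fun_prop) (by fun_prop))
  · intro a k hk
    rw [e, sz_nat]
    have := kk_le A (x a) (s a) k
    omega

theorem PT_up {y : α → List Bool} (hy : PolyTime y) : PolyTime (fun a => unpairL (y a)) :=
  PolyTime.comp PT_unpairL hy

theorem PT_off {y : α → List Bool} (hy : PolyTime y) : PolyTime (fun a => off A (y a)) := by
  have h0 := PT_up hy
  have h1 : PolyTime (fun a => A.T.eval (y a).length) := PT_eval A.T (by fun_prop)
  have h2 : PolyTime (fun a => A.T.eval (unpairL (y a)).1.length) := PT_eval A.T (by fun_prop)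
  unfold off
  fun_prop

theorem PT_kt {y : α → List Bool} {t : α → ℕ} (hy : PolyTime y) (ht : PolyTime t) :
    PolyTime (fun a => kt A (y a) (t a)) := by
  have h0 := PT_up hy
  have h1 := PT_off A hy
  unfold kt
  exact PT_kk A (by fun_prop) (by fun_prop) (by fun_prop)

theorem PT_sch {y : α → List Bool} {t : α → ℕ} (hy : PolyTime y) (ht : PolyTime t) :
    PolyTime (fun a => sch A (y a) (t a)) := by
  have h0 := PT_up hy
  have h1 := PT_off A hy
  have h2 := PT_kt A hy ht
  unfold sch
  exact PolyTime.pair (by fun_prop) (PolyTime.pair (by fun_prop) (by fun_prop))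

theorem PT_vw {z : α → Pool.Agent.Helper78.LM.View} (hz : PolyTime z) :
    PolyTime (fun a => vw A (z a)) := by
  have h0 : PolyTime (fun a => unpairL (z a).1) := PT_up (by fun_prop)
  have h1 : PolyTime (fun a => off A (z a).1) := PT_off A (by fun_prop)
  have h2 : PolyTime (fun a => kt A (z a).1 (z a).2.1) := PT_kt A (by fun_prop) (by fun_prop)
  unfold vw
  exact PolyTime.pair (by fun_prop) (PolyTime.pair (by fun_prop) (PolyTime.pair (by fun_prop)
    (PolyTime.pair (by fun_prop) (PolyTime.pair (by fun_prop) (by fun_prop)))))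

theorem PT_cut {n : α → ℕ} {l : α → List Bool} (hn : PolyTime n) (hl : PolyTime l) :
    PolyTime (fun a => cut (n a) (l a)) := by
  unfold cut
  exact PolyTime.list_map (f := fun a i => (l a).getD i false) (PolyTime.range hn)
    (PolyTime.getD (by fun_prop) (by fun_prop) (by fun_prop))

theorem PT_next : PolyTime (rNext A) := by
  have hn : PolyTime A.next := PT_of_comp A.next_poly
  have h1 : PolyTime (fun z : Pool.Agent.Helper78.LM.View => off A z.1) :=
    PT_off A (by fun_prop)
  have h2 : PolyTime (fun z : Pool.Agent.Helper78.LM.View => A.next (vw A z)) :=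
    PolyTime.comp hn (PT_vw A (by fun_prop))
  have h3 : PolyTime (fun z : Pool.Agent.Helper78.LM.View => A.w.eval z.1.length) :=
    PT_eval A.w (by fun_prop)
  unfold rNext
  exact PolyTime.itep (by fun_prop) (by fun_prop) (PolyTime.itep (by fun_prop) h2 (by fun_prop))

theorem PT_push : PolyTime (rPush A) := by
  have hn : PolyTime A.push := PT_of_comp A.push_poly
  have h1 : PolyTime (fun z : Pool.Agent.Helper78.LM.View => off A z.1) :=
    PT_off A (by fun_prop)
  have h2 : PolyTime (fun z : Pool.Agent.Helper78.LM.View => A.push (vw A z)) :=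
    PolyTime.comp hn (PT_vw A (by fun_prop))
  have h3 : PolyTime (fun z : Pool.Agent.Helper78.LM.View => A.w.eval z.1.length) :=
    PT_eval A.w (by fun_prop)
  have h4 : PolyTime (fun z : Pool.Agent.Helper78.LM.View × ℕ => A.w.eval z.1.1.length) :=
    PT_eval A.w (by fun_prop)
  unfold rPush
  refine PolyTime.itep (by fun_prop) (PolyTime.const _) ?_
  exact PolyTime.filter (f := fun (z : Pool.Agent.Helper78.LM.View) (s : ℕ) =>
    decide (s < A.w.eval z.1.length)) h2 (PolyTime.decide_lt (by fun_prop) h4)

theorem PT_vec : PolyTime (rVec A) := by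
  have hn : PolyTime A.vec := PT_of_comp A.vec_poly
  have h0 : PolyTime (fun z : Pool.Agent.Helper78.LM.View => unpairL z.1) :=
    PT_up (by fun_prop)
  have h1 : PolyTime (fun z : Pool.Agent.Helper78.LM.View => off A z.1) :=
    PT_off A (by fun_prop)
  have h2 : PolyTime (fun z : Pool.Agent.Helper78.LM.View => A.vec (vw A z)) :=
    PolyTime.comp hn (PT_vw A (by fun_prop))
  have h3 : PolyTime (fun z : Pool.Agent.Helper78.LM.View => A.m.eval z.1.length) :=
    PT_eval A.m (by fun_prop)
  have h4 : PolyTime (fun z : Pool.Agent.Helper78.LM.View =>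
      A.m.eval (unpairL z.1).1.length) := PT_eval A.m (by fun_prop)
  unfold rVec
  exact PolyTime.itep (by fun_prop) (PolyTime.itep (by fun_prop) (PT_unitV h3)
    (PolyTime.const _)) (PT_cut h4 h2)

theorem PT_row : PolyTime (rRow A) := by
  have hn : PolyTime A.row := PT_of_comp A.row_poly
  have h0 : PolyTime (fun z : List Bool × ℕ × ℕ => unpairL z.1) := PT_up (by fun_prop)
  have h1 : PolyTime (fun z : List Bool × ℕ × ℕ => off A z.1) := PT_off A (by fun_prop)
  have h2 : PolyTime (fun z : List Bool × ℕ × ℕ => A.row (sch A z.1 z.2.1, z.2.2)) :=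
    PolyTime.comp hn (PolyTime.pair (PT_sch A (by fun_prop) (by fun_prop)) (by fun_prop))
  have h4 : PolyTime (fun z : List Bool × ℕ × ℕ => A.m.eval (unpairL z.1).1.length) :=
    PT_eval A.m (by fun_prop)
  have h5 : PolyTime (fun z : List Bool × ℕ × ℕ => unitV z.2.2) := PT_unitV (by fun_prop)
  unfold rRow
  exact PolyTime.itep (by fun_prop) h5 (PT_cut h4 h2)

theorem PT_form : PolyTime (rForm A) := by
  have hn : PolyTime A.form := PT_of_comp A.form_poly
  have hr : PolyTime A.reads := PT_of_comp A.reads_poly
  have h1 : PolyTime (fun z : List Bool × ℕ => off A z.1) := PT_off A (by fun_prop)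
  have h3 : PolyTime (fun z : List Bool × ℕ => A.m.eval z.1.length) := PT_eval A.m (by fun_prop)
  have g0 : PolyTime (fun z : (List Bool × ℕ) × ℕ => unpairL z.1.1) := PT_up (by fun_prop)
  have g1 : PolyTime (fun z : (List Bool × ℕ) × ℕ => A.m.eval (unpairL z.1.1).1.length) :=
    PT_eval A.m (by fun_prop)
  have g2 : PolyTime (fun z : (List Bool × ℕ) × ℕ => A.m.eval z.1.1.length) :=
    PT_eval A.m (by fun_prop)
  have g3 : PolyTime (fun z : (List Bool × ℕ) × ℕ => A.form (sch A z.1.1 z.1.2)) :=
    PolyTime.comp hn (PT_sch A (by fun_prop) (by fun_prop))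
  have g4 : PolyTime (fun z : (List Bool × ℕ) × ℕ => A.reads (sch A z.1.1 z.1.2)) :=
    PolyTime.comp hr (PT_sch A (by fun_prop) (by fun_prop))
  have g5 : PolyTime (fun z : (List Bool × ℕ) × ℕ => kt A z.1.1 z.1.2) :=
    PT_kt A (by fun_prop) (by fun_prop)
  unfold rForm
  refine PolyTime.itep (by fun_prop) (PolyTime.const _) ?_
  refine PolyTime.list_map (f := fun (z : List Bool × ℕ) (i : ℕ) =>
    if i < A.m.eval (unpairL z.1).1.length then (A.form (sch A z.1 z.2)).getD i false
    else decide (i = A.m.eval z.1.length) &&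
      (A.reads (sch A z.1 z.2) && (unpairL z.1).2.getD (kt A z.1 z.2) false))
    (PolyTime.range (by fun_prop)) ?_
  refine PolyTime.itep (by fun_prop) (PolyTime.getD g3 (by fun_prop) (by fun_prop)) ?_
  exact PolyTime.and (PolyTime.decide_eq (by fun_prop) g2)
    (PolyTime.and g4 (PolyTime.getD (by fun_prop) g5 (by fun_prop)))

theorem PT_val : PolyTime (fun z : List Bool × List Bool => Val A z.1 z.2) := by
  have h1 : PolyTime (fun z : List Bool × List Bool => A.T.eval z.1.length) :=
    PT_eval A.T (by fun_prop)
  have h2 : PolyTime (fun z : List Bool × List Bool => kk A z.1 z.2 (A.T.eval z.1.length)) :=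
    PT_kk A (by fun_prop) (by fun_prop) h1
  unfold Val
  fun_prop

end

theorem rpt : RptStmt := by
  intro A
  exact ⟨(PT_next A).computable, (PT_push A).computable, (PT_vec A).computable,
    (PT_row A).computable, (PT_form A).computable, (PolyTime.const _).computable, PT_val A⟩

end Pool.Agent.Helper79.LNA
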