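import Pool.Agent.Helper85.LN.Goals

/-! Packet MEM2 of project LN. -/

namespace Pool.Agent.Helper79.LN

open Pool.Agent.Helper85.LN

section abstract

variable {G X : Type} [Group G] [MulAction G X]

open Classical in
/-- a choice of a point in every orbit, depending on an index -/
noncomputable def ch (G : Type) {X : Type} [Group G] [MulAction G X] (N : ℕ × X) (y : X) : X :=
  if N.2 ∈ MulAction.orbit G y then N.2
  else Quotient.out (Quotient.mk (MulAction.orbitRel G X) y)

lemma ch_mem (N : ℕ × X) (y : X) : ch G N y ∈ MulAction.orbit G y := by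
  unfold ch
  split_ifs with h
  · exact h
  · exact Quotient.mk_out (s := MulAction.orbitRel G X) y

lemma ch_smul (N : ℕ × X) (g : G) (y : X) : ch G N (g • y) = ch G N y := by
  unfold ch
  have h1 : MulAction.orbit G (g • y) = MulAction.orbit G y := MulAction.orbit_smul g y
  have h2 : Quotient.mk (MulAction.orbitRel G X) (g • y) =
      Quotient.mk (MulAction.orbitRel G X) y := by
    apply Quotient.sound
    exact MulAction.mem_orbit y g
  rw [h1, h2]

lemma ch_self (k : ℕ) (z : X) : ch G (k, z) z = z := by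
  unfold ch
  rw [if_pos (MulAction.mem_orbit_self z)]

lemma sec_one {sec : G → X → G} (hsec : ∀ g h x, sec (g * h) x = sec g (h • x) * sec h x)
    (x : X) : sec 1 x = 1 := by
  have h := hsec 1 1 x
  rw [one_smul, mul_one] at h
  exact left_eq_mul.1 h

lemma sec_inv {sec : G → X → G} (hsec : ∀ g h x, sec (g * h) x = sec g (h • x) * sec h x)
    (g : G) (x : X) : sec g⁻¹ (g • x) = (sec g x)⁻¹ := by
  have h := hsec g⁻¹ g x
  rw [inv_mul_cancel, sec_one hsec] at h
  exact eq_inv_of_mul_eq_one_left h.symm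

/-- the group of sections of the stabilizer -/
def HH (sec : G → X → G) (hsec : ∀ g h x, sec (g * h) x = sec g (h • x) * sec h x) (z : X) :
    Subgroup G where
  carrier := {p | ∃ u : G, u • z = z ∧ sec u z = p}
  mul_mem' := by
    rintro p q ⟨u, hu, rfl⟩ ⟨v, hv, rfl⟩
    refine ⟨u * v, ?_, ?_⟩
    · rw [mul_smul, hv, hu]
    · rw [hsec, hv]
  one_mem' := ⟨1, one_smul _ _, sec_one hsec z⟩
  inv_mem' := by
    rintro p ⟨u, hu, rfl⟩
    refine ⟨u⁻¹, ?_, ?_⟩
    · rw [inv_smul_eq_iff, hu]
    · have h := sec_inv hsec u z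
      rwa [hu] at h

/-- right cosets -/
abbrev II (sec : G → X → G) (hsec : ∀ g h x, sec (g * h) x = sec g (h • x) * sec h x) (z : X) :
    Type := Quotient (QuotientGroup.rightRel (HH sec hsec z))

lemma exE [Countable G] [Countable X] (sec : G → X → G)
    (hsec : ∀ g h x, sec (g * h) x = sec g (h • x) * sec h x) (z : X) :
    Nonempty ((ℕ × X) ≃ {N : ℕ × X // ch G N z = z} × II sec hsec z) := by
  have : Nonempty X := ⟨z⟩
  have h1 : Infinite {N : ℕ × X // ch G N z = z} := by
    refine Infinite.of_injective (fun k : ℕ => (⟨(k, z), ch_self k z⟩ :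
      {N : ℕ × X // ch G N z = z})) ?_
    intro k k' h
    have := congrArg (fun N : {N : ℕ × X // ch G N z = z} => N.1.1) h
    exact this
  have h2 : Nonempty (II sec hsec z) := ⟨Quotient.mk _ 1⟩
  have h3 : Countable (II sec hsec z) := Quotient.countable
  exact nonempty_equiv_of_countable

theorem exPerm [Countable G] [Countable X] (sec : G → X → G)
    (hsec : ∀ g h x, sec (g * h) x = sec g (h • x) * sec h x)
    (hinj : ∀ g x, g • x = x → sec g x = 1 → g = 1) :
    ∃ (Ω : Type) (L : G →* Equiv.Perm Ω) (c : X → Equiv.Perm Ω),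
      (∀ g y, L g * c y = c (g • y) * L (sec g y)) ∧
      ∀ a b, b ∈ MulAction.orbit G a → a ≠ b → ∀ u, (c b)⁻¹ * c a ≠ L u := by
  classical
  have hE := exE sec hsec
  let E : ∀ z : X, (ℕ × X) ≃ {N : ℕ × X // ch G N z = z} × II sec hsec z :=
    fun z => Classical.choice (hE z)
  let rep : ∀ z : X, II sec hsec z → G := fun z i => Quotient.out i
  have hrep : ∀ (z : X) (p : G), p * (rep z (Quotient.mk _ p))⁻¹ ∈ HH sec hsec z := by
    intro z p
    have h : (QuotientGroup.rightRel (HH sec hsec z)) (rep z (Quotient.mk _ p)) p :=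
      Quotient.mk_out (s := QuotientGroup.rightRel (HH sec hsec z)) p
    exact QuotientGroup.rightRel_apply.1 h
  have hrep2 : ∀ (z : X) (i j : II sec hsec z), rep z j * (rep z i)⁻¹ ∈ HH sec hsec z → i = j := by
    intro z i j h
    have h1 : (QuotientGroup.rightRel (HH sec hsec z)) (rep z i) (rep z j) :=
      QuotientGroup.rightRel_apply.2 h
    have h2 : Quotient.mk (QuotientGroup.rightRel (HH sec hsec z)) (rep z i)
      = Quotient.mk (QuotientGroup.rightRel (HH sec hsec z)) (rep z j) := Quotient.sound h1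
    rwa [Quotient.out_eq, Quotient.out_eq] at h2
  let kk : X → G → (ℕ × X) → G × (ℕ × X) := fun z s n => (s * rep z (E z n).2, (E z n).1.1)
  have hk1 : ∀ z s n, ch G (kk z s n).2 z = z := fun z s n => (E z n).1.2
  have hk2 : ∀ z s n s' n', kk z s n = kk z s' n' → s'⁻¹ * s ∈ HH sec hsec z →
      s = s' ∧ n = n' := by
    intro z s n s' n' h hs
    have h1 : s * rep z (E z n).2 = s' * rep z (E z n').2 := congrArg Prod.fst h
    have h2 : (E z n).1.1 = (E z n').1.1 := congrArg Prod.snd h
    have h3 : (E z n).2 = (E z n').2 := by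
      apply hrep2
      have : rep z (E z n').2 * (rep z (E z n).2)⁻¹ = s'⁻¹ * s := by
        rw [mul_inv_eq_iff_eq_mul, mul_assoc, h1, inv_mul_cancel_left]
      rw [this]
      exact hs
    rw [h3] at h1
    refine ⟨mul_right_cancel h1, ?_⟩
    apply (E z).injective
    exact Prod.ext (Subtype.ext h2) h3
  have hk3 : ∀ z N, ch G N z = z → ∀ q, ∃ h ∈ HH sec hsec z, ∃ n, ∀ s, kk z (s * h) n = (s * q, N) := by
    intro z N hN q
    refine ⟨q * (rep z (Quotient.mk _ q))⁻¹, hrep z q, (E z).symm (⟨N, hN⟩, Quotient.mk _ q), ?_⟩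
    intro s
    simp only [kk, Equiv.apply_symm_apply]
    rw [mul_assoc, inv_mul_cancel_right]
  let k : X → G × (ℕ × X) → G × (ℕ × X) := fun y p => kk (p.1⁻¹ • y) (sec p.1 (p.1⁻¹ • y)) p.2
  have horb : ∀ (N : ℕ × X) (y z : X), z ∈ MulAction.orbit G y → ch G N z = ch G N y := by
    rintro N y z ⟨g, rfl⟩
    exact ch_smul N g y
  have hkinj : ∀ y, Function.Injective (k y) := by
    rintro y ⟨g, n⟩ ⟨g', n'⟩ h
    have hz1 := hk1 (g⁻¹ • y) (sec g (g⁻¹ • y)) n
    have hz2 := hk1 (g'⁻¹ • y) (sec g' (g'⁻¹ • y)) n'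
    have hN : (kk (g⁻¹ • y) (sec g (g⁻¹ • y)) n).2 = (kk (g'⁻¹ • y) (sec g' (g'⁻¹ • y)) n').2 :=
      congrArg Prod.snd h
    have hzz : g⁻¹ • y = g'⁻¹ • y := by
      rw [← hz1, ← hz2, hN, ch_smul, ch_smul]
    have h' : kk (g⁻¹ • y) (sec g (g⁻¹ • y)) n = kk (g'⁻¹ • y) (sec g' (g'⁻¹ • y)) n' := h
    rw [← hzz] at h'
    set z := g⁻¹ • y with hz
    have hgz : g • z = y := by rw [hz, smul_inv_smul]
    have hgz' : g' • z = y := by rw [hzz, smul_inv_smul]
    have hu : (g'⁻¹ * g) • z = z := by rw [mul_smul, hgz, ← hzz]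
    have hsu : sec g z = sec g' z * sec (g'⁻¹ * g) z := by
      have h1 := hsec g' (g'⁻¹ * g) z
      rw [mul_inv_cancel_left, hu] at h1
      exact h1
    have hmem : (sec g' z)⁻¹ * sec g z ∈ HH sec hsec z := by
      refine ⟨g'⁻¹ * g, hu, ?_⟩
      rw [hsu, inv_mul_cancel_left]
    obtain ⟨h1, h2⟩ := hk2 z _ n _ n' h' hmem
    have h3 : sec (g'⁻¹ * g) z = 1 := by
      rw [h1] at hsu
      exact left_eq_mul.1 hsu
    have h4 := hinj _ z hu h3
    have h5 : g = g' := (inv_mul_eq_one.1 h4).symm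
    rw [h5, h2]
  have hksurj : ∀ y, Function.Surjective (k y) := by
    rintro y ⟨p, N⟩
    obtain ⟨g0, hg0⟩ : y ∈ MulAction.orbit G (ch G N y) := by
      rw [MulAction.mem_orbit_symm]; exact ch_mem N y
    set z := ch G N y with hz
    have hg0' : g0 • z = y := hg0
    have hNz : ch G N z = z := by
      rw [horb N y z (ch_mem N y)]
    obtain ⟨h, ⟨u, hu, hsu⟩, n, hn⟩ := hk3 z N hNz ((sec g0 z)⁻¹ * p)
    have hinv : (g0 * u)⁻¹ • y = z := by
      rw [inv_smul_eq_iff, mul_smul, hu, hg0']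
    refine ⟨(g0 * u, n), ?_⟩
    change kk ((g0 * u)⁻¹ • y) (sec (g0 * u) ((g0 * u)⁻¹ • y)) n = (p, N)
    rw [hinv, hsec, hu, hsu, hn, mul_inv_cancel_left]
  have hkeq : ∀ g y (p : G × (ℕ × X)), k (g • y) (g * p.1, p.2) =
      (sec g y * (k y p).1, (k y p).2) := by
    rintro g y ⟨g', n⟩
    have hz : (g * g')⁻¹ • g • y = g'⁻¹ • y := by
      rw [mul_inv_rev, mul_smul, inv_smul_smul]
    change kk ((g * g')⁻¹ • g • y) (sec (g * g') ((g * g')⁻¹ • g • y)) n = _
    rw [hz, hsec, smul_inv_smul]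
    simp only [k, kk, mul_assoc]
  let L : G →* Equiv.Perm (G × (ℕ × X)) :=
    { toFun := fun g => (Equiv.mulLeft g).prodCongr (Equiv.refl _)
      map_one' := by ext p <;> simp
      map_mul' := fun g h => by ext p <;> simp [mul_assoc] }
  have hL : ∀ g p, L g p = (g * p.1, p.2) := fun g p => rfl
  let K : X → Equiv.Perm (G × (ℕ × X)) := fun y => Equiv.ofBijective (k y) ⟨hkinj y, hksurj y⟩
  have hK : ∀ y p, K y p = k y p := fun y p => rfl
  refine ⟨G × (ℕ × X), L, fun y => (K y)⁻¹, ?_, ?_⟩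
  · intro g y
    have h : K (g • y) * L g = L (sec g y) * K y := by
      ext1 p
      rw [Equiv.Perm.mul_apply, Equiv.Perm.mul_apply, hL, hL, hK, hK, hkeq]
    rw [mul_inv_eq_iff_eq_mul, mul_assoc, ← h, inv_mul_cancel_left]
  · intro a b hab hne u hu
    rw [inv_inv, mul_inv_eq_iff_eq_mul] at hu
    have h1 : K b (1, (0, a)) = L u (K a (1, (0, a))) := by
      rw [hu]; rfl
    rw [hL, hK, hK] at h1
    have h2 : (k b (1, (0, a))).2 = (k a (1, (0, a))).2 := by rw [h1]
    have ea : ((1 : G)⁻¹ • a) = a := by simp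
    have eb : ((1 : G)⁻¹ • b) = b := by simp
    have hz1 := hk1 ((1 : G)⁻¹ • a) (sec 1 ((1 : G)⁻¹ • a)) (0, a)
    have hz2 := hk1 ((1 : G)⁻¹ • b) (sec 1 ((1 : G)⁻¹ • b)) (0, a)
    have h3 : (kk ((1 : G)⁻¹ • b) (sec 1 ((1 : G)⁻¹ • b)) (0, a)).2 =
      (kk ((1 : G)⁻¹ • a) (sec 1 ((1 : G)⁻¹ • a)) (0, a)).2 := h2
    rw [ea] at hz1 h3
    rw [eb] at hz2 h3
    rw [h3] at hz2
    exact hne (hz1.symm.trans ((horb _ a b hab).symm.trans hz2))

end abstract

open Auto in
theorem mem2 : S_MEM2 := by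
  intro m d A hLN a b hne hMem
  -- the action and the sections
  have hw : ∀ g : A.G, ∃ w, A.val w = g.1 := fun g => (A.mem_G_iff g.1).1 g.2
  choose wd hwd using hw
  let act : A.G → Fin d → Fin d := fun g x => A.toWA.ltw (wd g) x
  let sec : A.G → Fin d → A.G := fun g x => ⟨A.val (A.toWA.scw (wd g) x), A.val_mem _⟩
  have key : ∀ (g : A.G) x u, g.1 (x :: u) = act g x :: (sec g x).1 u := by
    intro g x u
    rw [← hwd g]
    exact A.val_apply_cons _ _ _
  have act_one : ∀ x, act 1 x = x := by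
    intro x
    have h := key 1 x []
    exact (List.cons.inj h).1.symm
  have act_mul : ∀ g h x, act (g * h) x = act g (act h x) ∧
      sec (g * h) x = sec g (act h x) * sec h x := by
    intro g h x
    have h1 : ∀ u, act (g * h) x :: (sec (g * h) x).1 u =
        act g (act h x) :: (sec g (act h x)).1 ((sec h x).1 u) := by
      intro u
      rw [← key, ← key, ← key]
      rfl
    refine ⟨(List.cons.inj (h1 [])).1, ?_⟩
    apply Subtype.ext
    ext1 u
    exact (List.cons.inj (h1 u)).2
  let _ : MulAction A.G (Fin d) :=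
    { smul := act
      one_smul := act_one
      mul_smul := fun g h x => (act_mul g h x).1 }
  have hsec : ∀ (g h : A.G) (x : Fin d), sec (g * h) x = sec g (h • x) * sec h x :=
    fun g h x => (act_mul g h x).2
  have hinj : ∀ (g : A.G) (x : Fin d), g • x = x → sec g x = 1 → g = 1 := by
    intro g x h1 h2
    apply Subtype.ext
    apply hLN g.1 g.2 [x]
    intro w
    rw [List.singleton_append, key, h2]
    have h1' : act g x = x := h1
    rw [h1']
    rfl
  have : Countable A.G := by
    refine Function.Surjective.countable (f := fun w : List (S (Fin m)) =>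
      (⟨A.val w, A.val_mem w⟩ : A.G)) ?_
    intro g
    exact ⟨wd g, Subtype.ext (hwd g)⟩
  -- the images of the states
  let pq : Fin m → A.G := fun q => ⟨A.perm q, Subgroup.subset_closure ⟨q, rfl⟩⟩
  have hpq : ∀ q x, pq q • x = A.out q x ∧ sec (pq q) x = pq (A.tr q x) := by
    intro q x
    have h1 : ∀ u, A.out q x :: A.perm (A.tr q x) u = act (pq q) x :: (sec (pq q) x).1 u := by
      intro u
      rw [← key]
      exact (A.perm_cons q x u).symm
    refine ⟨(List.cons.inj (h1 [])).1.symm, ?_⟩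
    apply Subtype.ext
    ext1 u
    exact (List.cons.inj (h1 u)).2.symm
  -- the two letters are in the same orbit
  have horb : b ∈ MulAction.orbit A.G a := by
    classical
    by_contra hb
    let f : Fin m ⊕ Fin d → Multiplicative ℤ := Sum.elim (fun _ => 1)
      (fun x => if x ∈ MulAction.orbit A.G a then Multiplicative.ofAdd 1 else 1)
    have hf : ∀ r ∈ relsC A, FreeGroup.lift f r = 1 := by
      rintro r ⟨⟨q, x⟩, rfl⟩
      have h1 : x ∈ MulAction.orbit A.G a ↔ A.out q x ∈ MulAction.orbit A.G a := by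
        rw [← (hpq q x).1]
        constructor
        · rintro ⟨g, rfl⟩
          exact ⟨pq q * g, mul_smul _ _ _⟩
        · rintro ⟨g, hg⟩
          have hg' : g • a = pq q • x := hg
          refine ⟨(pq q)⁻¹ * g, ?_⟩
          change ((pq q)⁻¹ * g) • a = x
          rw [mul_smul, hg', inv_smul_smul]
      simp only [map_mul, map_inv, FreeGroup.lift_apply_of, f, Sum.elim_inl, Sum.elim_inr, one_mul,
        mul_one]
      by_cases hx : x ∈ MulAction.orbit A.G a
      · rw [if_pos hx, if_pos (h1.1 hx), mul_inv_cancel]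
      · rw [if_neg hx, if_neg (fun h => hx (h1.2 h)), mul_inv_cancel]
    let F : PresentedGroup (relsC A) →* Multiplicative ℤ := PresentedGroup.toGroup hf
    have hle : Subgroup.closure (Set.range fun q : Fin m =>
        PresentedGroup.of (rels := relsC A) (Sum.inl q)) ≤ F.ker := by
      rw [Subgroup.closure_le]
      rintro _ ⟨q, rfl⟩
      change F _ = 1
      exact PresentedGroup.toGroup.of hf
    have h2 : F ((PresentedGroup.of (rels := relsC A) (Sum.inr b))⁻¹ *
        PresentedGroup.of (Sum.inr a)) = 1 := hle hMem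
    rw [map_mul, map_inv] at h2
    have ha : F (PresentedGroup.of (Sum.inr a)) = Multiplicative.ofAdd 1 := by
      have : F (PresentedGroup.of (Sum.inr a)) = f (Sum.inr a) := PresentedGroup.toGroup.of hf
      rw [this]
      simp [f]
    have hb' : F (PresentedGroup.of (Sum.inr b)) = 1 := by
      have : F (PresentedGroup.of (Sum.inr b)) = f (Sum.inr b) := PresentedGroup.toGroup.of hf
      rw [this]
      simp [f, hb]
    rw [ha, hb', inv_one, one_mul] at h2
    have h3 : (1 : ℤ) = 0 := congrArg Multiplicative.toAdd h2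
    exact one_ne_zero h3
  obtain ⟨Ω, L, c, hc, hc2⟩ := exPerm sec hsec hinj
  let f : Fin m ⊕ Fin d → Equiv.Perm Ω := Sum.elim (fun q => L (pq q)) c
  have hf : ∀ r ∈ relsC A, FreeGroup.lift f r = 1 := by
    rintro r ⟨⟨q, x⟩, rfl⟩
    simp only [map_mul, map_inv, FreeGroup.lift_apply_of, f, Sum.elim_inl, Sum.elim_inr]
    rw [hc, (hpq q x).1, (hpq q x).2, mul_inv_cancel]
  let F : PresentedGroup (relsC A) →* Equiv.Perm Ω := PresentedGroup.toGroup hf
  have hle : Subgroup.closure (Set.range fun q : Fin m =>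
      PresentedGroup.of (rels := relsC A) (Sum.inl q)) ≤ L.range.comap F := by
    rw [Subgroup.closure_le]
    rintro _ ⟨q, rfl⟩
    have h1 : F (PresentedGroup.of (Sum.inl q)) = L (pq q) := PresentedGroup.toGroup.of hf
    exact ⟨pq q, h1.symm⟩
  obtain ⟨u, hu⟩ := hle hMem
  have ha : F (PresentedGroup.of (Sum.inr a)) = c a := PresentedGroup.toGroup.of hf
  have hb' : F (PresentedGroup.of (Sum.inr b)) = c b := PresentedGroup.toGroup.of hf
  rw [map_mul, map_inv, ha, hb'] at hu
  exact hc2 a b horb hne u hu.symm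

end Pool.Agent.Helper79.LN
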